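import Mathlib

set_option autoImplicit false

namespace Pool.Agent.Results.MP_5909b9_co.Counter

open SimpleGraph Finset MvPolynomial

/-- the operator sending `mu ^ r` to `mu ^ r / r!`, where `x, lambda, mu` are the variables `0, 1, 2` -/
noncomputable def omega (p : MvPolynomial (Fin 3) ℚ) : MvPolynomial (Fin 3) ℚ :=
  ∑ d ∈ p.support, monomial d (p.coeff d / (d 2).factorial)

open Classical in
/-- `Q(G) = omega per (x I + lambda A + mu J)` -/
noncomputable def Q {n : ℕ} (G : SimpleGraph (Fin n)) : MvPolynomial (Fin 3) ℚ :=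
  omega (Matrix.permanent ((X 0 : MvPolynomial (Fin 3) ℚ) • (1 : Matrix (Fin n) (Fin n) _) +
    (X 1 : MvPolynomial (Fin 3) ℚ) • G.adjMatrix _ + (X 2 : MvPolynomial (Fin 3) ℚ) • Matrix.of fun _ _ => 1))

def per : (n : ℕ) → (Fin n → Fin n → ℕ) → ℕ
  | 0, _ => 1
  | n + 1, M => ∑ p, M p 0 * per n fun i j => M (Equiv.swap 0 p i.succ) j.succ

lemma per_eq (n : ℕ) (M : Fin n → Fin n → ℕ) : per n M = ∑ σ : Equiv.Perm (Fin n), ∏ i, M (σ i) i := by
  induction n with
  | zero => simp [per]
  | succ n ih =>
    rw [per, ← Equiv.Perm.decomposeFin.symm.sum_comp, Fintype.sum_prod_type]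
    simp [ih, Fin.prod_univ_succ, mul_sum]

lemma digits (B m : ℕ) (c d : ℕ → ℕ) (hc : ∀ j, c j < B) (hd : ∀ j, d j < B)
    (h : ∑ j ∈ range m, c j * B ^ j = ∑ j ∈ range m, d j * B ^ j) : ∀ j < m, c j = d j := by
  induction m generalizing c d with
  | zero => simp
  | succ m ih =>
    simp only [sum_range_succ', pow_succ, ← mul_assoc, ← sum_mul, pow_zero, mul_one] at h
    have h0 : c 0 = d 0 := by
      have := congrArg (· % B) h
      simpa [Nat.mod_eq_of_lt, hc, hd] using this
    rw [h0, add_left_inj] at h
    have := ih _ _ (fun j => hc (j + 1)) (fun j => hd (j + 1))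
      (Nat.eq_of_mul_eq_mul_right (Nat.zero_lt_of_lt (hc 0)) h)
    rintro (_ | j) hj
    exacts [h0, this j (by omega)]

def gr (a : ℕ) : SimpleGraph (Fin 8) := fromRel fun u v => a.testBit (8 * u + v) = true

instance (a : ℕ) : DecidableRel (gr a).Adj := fun u v => by unfold gr; infer_instance

def k (a : ℕ) (u v : Fin 8) : ℕ := if u = v then 1 else if (gr a).Adj u v then 9 else 0

lemma fib {R : Type} [CommSemiring R] (a : ℕ) (W : ℕ → R) :
    ∑ σ : Equiv.Perm (Fin 8), W (∑ i, k a (σ i) i) = ∑ j ∈ range 81,
      ((univ.filter fun σ : Equiv.Perm (Fin 8) => ∑ i, k a (σ i) i = j).card : R) * W j := by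
  rw [← sum_fiberwise_of_maps_to (t := range 81) (g := fun σ => ∑ i, k a (σ i) i)]
  · refine sum_congr rfl fun j _ => ?_
    rw [sum_congr rfl fun σ h => congrArg W (mem_filter.1 h).2, sum_const, nsmul_eq_mul]
  · intro σ _
    have : ∑ i, k a (σ i) i ≤ ∑ _i : Fin 8, 9 := sum_le_sum fun i _ => by unfold k; split_ifs <;> omega
    simp at this ⊢
    omega

lemma prodW {R : Type} [CommSemiring R] (x y z : R) (a : ℕ) (σ : Equiv.Perm (Fin 8)) :
    ∏ i, (if σ i = i then x else if (gr a).Adj (σ i) i then y else z) =
      (fun j => x ^ (j % 9) * y ^ (j / 9) * z ^ (8 - j % 9 - j / 9)) (∑ i, k a (σ i) i) := by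
  have h : ∀ s : Finset (Fin 8), ∃ p q r, p + q + r = s.card ∧ ∑ i ∈ s, k a (σ i) i = p + 9 * q ∧
      ∏ i ∈ s, (if σ i = i then x else if (gr a).Adj (σ i) i then y else z) = x ^ p * y ^ q * z ^ r := by
    intro s
    induction s using Finset.induction_on with
    | empty => exact ⟨0, 0, 0, by simp⟩
    | insert i s hi ih =>
      obtain ⟨p, q, r, h1, h2, h3⟩ := ih
      rw [card_insert_of_notMem hi, sum_insert hi, prod_insert hi, h2, h3, k]
      split_ifs
      · exact ⟨p + 1, q, r, by omega, by omega, by ring⟩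
      · exact ⟨p, q + 1, r, by omega, by omega, by ring⟩
      · exact ⟨p, q, r + 1, by omega, by omega, by ring⟩
  obtain ⟨p, q, r, h1, h2, h3⟩ := h univ
  rw [card_univ, Fintype.card_fin] at h1
  rw [h2, h3]
  show _ = x ^ _ * y ^ _ * z ^ _
  rw [show (p + 9 * q) % 9 = p by omega, show (p + 9 * q) / 9 = q by omega,
    show 8 - p - q = r by omega]

def w (a : ℕ) (u v : Fin 8) : ℕ :=
  cond (Nat.beq u v) 65536 (cond (a.testBit (8 * u + v)) (65536 ^ 9) 1)

theorem c1 : per 8 (w 8335268617647597712) =
    3180961029628047612545684473398697794098433609165163755133793523057164384740860811970474810648615959332181655321419351539222494900284485274632044067718003593002529982832668419194429203882235938651479803753571040263731117846415069262544687829964961960064358563986600599656992416337498795969980584324375955847968682022666138235825897891920025743392820 := by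
  decide +kernel

theorem c2 : per 8 (w 8546859864168116272) =
    3180961029628047612545684473398697794098433609165163755133793523057164384740860811970474810648615959332181655321419351539222494900284485274632044067718003593002529982832668419194429203882235938651479803753571040263731117846415069262544687829964961960064358563986600599656992416337498795969980584324375955847968682022666138235825897891920025743392820 := by
  decide +kernel

lemma w1 : w 8335268617647597712 = fun u v => 65536 ^ k 8335268617647597712 u v := by decide +kernel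

lemma w2 : w 8546859864168116272 = fun u v => 65536 ^ k 8546859864168116272 u v := by decide +kernel

theorem result : ∃ G H : SimpleGraph (Fin 8), Q G = Q H ∧ IsEmpty (G ≃g H) := by
  refine ⟨gr 8335268617647597712, gr 8546859864168116272, ?_, ⟨fun φ => ?_⟩⟩
  · have key : ∀ a, Q (gr a) = omega (∑ j ∈ range 81,
        ((univ.filter fun σ : Equiv.Perm (Fin 8) => ∑ i, k a (σ i) i = j).card : MvPolynomial (Fin 3) ℚ) *
          ((X 0 + X 2) ^ (j % 9) * (X 1 + X 2) ^ (j / 9) * X 2 ^ (8 - j % 9 - j / 9))) := fun a => by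
      rw [← fib a fun j => (X 0 + X 2) ^ (j % 9) * (X 1 + X 2) ^ (j / 9) * X 2 ^ (8 - j % 9 - j / 9)]
      refine congrArg omega (sum_congr rfl fun σ _ => ?_)
      refine Eq.trans (prod_congr rfl fun i _ => ?_) (prodW (X 0 + X 2) (X 1 + X 2) (X 2) a σ)
      by_cases h : σ i = i
      · simp [h]
      · by_cases h' : (gr a).Adj (σ i) i <;> simp [h, h']
    have h := c1.trans c2.symm
    simp only [per_eq, w1, w2, prod_pow_eq_pow_sum] at h
    rw [fib _ fun j => 65536 ^ j, fib _ fun j => 65536 ^ j] at h
    have b : ∀ (a j : ℕ), (univ.filter fun σ : Equiv.Perm (Fin 8) => ∑ i, k a (σ i) i = j).card < 65536 :=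
      fun a j => (card_le_univ _).trans_lt (by rw [Fintype.card_perm]; decide)
    have := digits 65536 81 _ _ (b _) (b _) h
    rw [key, key]
    exact congrArg omega (sum_congr rfl fun j hj => by rw [this j (mem_range.1 hj)])
  · have h : ∀ u, (gr 8546859864168116272).Adj (φ.symm.symm 0) u ↔ u = φ 4 ∨ u = φ 7 := fun u => by
      obtain ⟨u, rfl⟩ := φ.surjective u
      show (gr _).Adj (φ 0) _ ↔ _
      rw [φ.map_adj_iff, φ.injective.eq_iff, φ.injective.eq_iff]
      revert u
      decide
    exact (by decide : ∀ a b c, (∀ u, (gr 8546859864168116272).Adj a u ↔ u = b ∨ u = c) →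
      ¬ (gr 8546859864168116272).Adj b c) _ _ _ h (φ.map_adj_iff.2 (by decide))

end Pool.Agent.Results.MP_5909b9_co.Counter
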